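import Pool.Agent.T6.H46.RC.Fin

/-!
# Rank rigidity for CAT(0) groups which split over a convex cocompact subgroup with a rank one
# element

Let `G` act geometrically on a geodesically complete proper CAT(0) space `X`, and let `G` act on a
tree `T`.  Let `e` be an edge of `T` whose pointwise stabiliser `K` is convex cocompact: `K`
preserves a closed convex subset `B` of `X` and acts cocompactly on it.  Assume that some element
of `K` is a rank one isometry of `B` (for instance `K` is infinite and hyperbolic).  Theorem: if
both half-trees bounded by `e` can be moved off themselves by elements of `G`, then `G` contains a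
rank one isometry of `X`, or `X` is a product of two spaces with more than one point.  More
precisely one of the factors is a closed convex `K`-invariant subset of `B`.  The condition on the
half-trees holds if the stabilisers of both ends of `e` are larger than `K`, so the theorem applies
to all nontrivial amalgams and to all HNN extensions in which both edge groups are proper
subgroups of the vertex group.

Idea of the proof.
(1) For `h` in `G` the group `K ∩ hKh⁻¹` acts cocompactly on the set of points of `B` near `hB`, so
it is quasi-convex in `K`.  If it contains powers of all conjugates in `K` of the rank one element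
then the convex function `d(x, hB)` is bounded on `B`.  This is proved by following the axes of
products of large powers of two independent conjugates of the rank one element.
(2) If `K ∩ h₁⁻¹Kh₁` and `K ∩ h₂Kh₂⁻¹` both contain no power of some conjugate, then north-south
dynamics on `B` gives `g` in `K` such that `K ∩ h₁⁻¹Kh₁ ∩ g(h₂Kh₂⁻¹)g⁻¹` is finite.  If the edges
`h₁⁻¹e`, `e`, `h₂e` are on a directed path then `g h₂ h₁` is hyperbolic on `T`, and a segment of its
axis has a finite stabiliser.  Such an element is a rank one isometry of `X`.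
(3) So if there is no rank one isometry in `G` then `B` is at finite distance from all its
translates `gB`, and all `K ∩ gKg⁻¹` are of finite index in `K`.  Let `B₀` be a minimal closed convex
`K`-invariant subset of `B`.  Convex functions on `B₀` which are invariant under a subgroup of
finite index of `K` are constant, so `B₀` and `gB₀` bound a product `B₀ × [0, w]`.  Parallelism
of such copies of `B₀` is transitive, the union of the copies is convex, its closure is
everything by geodesic completeness, and `X` is the product of `B₀` and the space of copies.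
-/

set_option autoImplicit false

namespace Pool.Agent.Results.MP_ff40e8_al.ConvexCocompactEdgeGroups

open Set Metric

/-- The inequality of Bruhat and Tits: a complete metric space is CAT(0) if and only if any two
points `p`, `q` have a midpoint `m` such that
`d(x, m)² ≤ (d(x, p)² + d(x, q)²) / 2 - d(p, q)² / 4` for all `x`. -/
def BruhatTits (X : Type) [MetricSpace X] : Prop := ∀ p q : X, ∃ m : X, ∀ x : X,
  dist x m ^ 2 ≤ (dist x p ^ 2 + dist x q ^ 2) / 2 - dist p q ^ 2 / 4

/-- Every geodesic segment extends to a geodesic line: for `p ≠ q` there is a line through `p` and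
`q` (in a CAT(0) space it contains the unique geodesic segment from `p` to `q`). -/
def GeodesicallyComplete (X : Type) [MetricSpace X] : Prop :=
  ∀ p q : X, p ≠ q → ∃ c : ℝ → X, Isometry c ∧ c 0 = p ∧ c (dist p q) = q

/-- The line `c` bounds a flat half-plane in the subset `B`: there is an isometric embedding `H`
of the Euclidean half-plane `ℝ × [0, ∞)` in `X`, with image in `B`, which extends `c`. -/
def BoundsHalfPlaneIn {X : Type} [MetricSpace X] (B : Set X) (c : ℝ → X) : Prop :=
  ∃ H : ℝ × NNReal → X,
    (∀ p q : ℝ × NNReal, dist (H p) (H q) ^ 2 = (p.1 - q.1) ^ 2 + ((p.2 : ℝ) - q.2) ^ 2) ∧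
    (∀ p : ℝ × NNReal, H p ∈ B) ∧ ∀ t : ℝ, H (t, 0) = c t

/-- `g` translates a geodesic line `c` in `B` by `τ > 0`, and this axis does not bound a flat
half-plane in `B`.  For `B = univ` this says that `g` is a rank one isometry of `X`, and for an
invariant closed convex set `B` it says that `g` is a rank one isometry of `B`. -/
def IsRankOneIn {X : Type} [MetricSpace X] {G : Type} [Group G] [MulAction G X] (B : Set X)
    (g : G) : Prop :=
  ∃ (τ : ℝ) (c : ℝ → X), 0 < τ ∧ Isometry c ∧ (∀ t, c t ∈ B) ∧ (∀ t, g • c t = c (t + τ)) ∧
    ¬ BoundsHalfPlaneIn B c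

/-- `B` is a nonempty closed convex subset of `X`, preserved by the subgroup `K`, which acts
cocompactly on `B`. -/
def ConvexCocompact {X : Type} [MetricSpace X] {G : Type} [Group G] [MulAction G X]
    (K : Subgroup G) (B : Set X) : Prop :=
  B.Nonempty ∧ IsClosed B ∧
    (∀ p ∈ B, ∀ q ∈ B, ∀ m, dist p m + dist m q = dist p q → m ∈ B) ∧
    (∀ g ∈ K, ∀ x ∈ B, g • x ∈ B) ∧
    ∃ C : Set X, IsCompact C ∧ ∀ x ∈ B, ∃ g ∈ K, g • x ∈ C

/-- The pointwise stabiliser of the edge `{a, b}`. -/
def EdgeStabilizer (G : Type) [Group G] {V : Type} [MulAction G V] (a b : V) : Subgroup G :=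
  MulAction.stabilizer G a ⊓ MulAction.stabilizer G b

open Pool.Agent.T6.H46.RC Pool.Agent.T6.H46.RR Pool.Agent.T6.H67.TA

/-- Let `G` act geometrically (by isometries, properly discontinuously, cocompactly) on a proper
geodesically complete CAT(0) space `X`, and let `G` act on a tree `T` by graph automorphisms.  Let
`{a, b}` be an edge of `T` such that
* there is `p` in `G` such that the segment from `a` to `p a` starts with `a, b` and ends with
  `p b, p a` (for instance any `p` which fixes `b` and not `a`);
* there is `q` in `G` such that the segment from `b` to `q b` starts with `b, a` and ends with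
  `q a, q b` (for instance any `q` which fixes `a` and not `b`);
* the pointwise stabiliser of the edge acts cocompactly on a closed convex subset `B` of `X`, and
  contains an element which is rank one in `B`.
Then `G` contains a rank one isometry of `X`, or `X` is isometric to a product `Z × B₀`, where `Z`
and `B₀` have more than one point and `B₀` is a closed convex subset of `B`, on which the
pointwise stabiliser of the edge acts cocompactly. -/
theorem result {X : Type} [MetricSpace X] [ProperSpace X] (hX : BruhatTits X)
    (hc : GeodesicallyComplete X)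
    {G : Type} [Group G] [MulAction G X] [IsIsometricSMul G X] [ProperlyDiscontinuousSMul G X]
    (hcc : ∃ C : Set X, IsCompact C ∧ ∀ x : X, ∃ g : G, g • x ∈ C)
    {V : Type} {T : SimpleGraph V} (hT : T.IsTree) [MulAction G V]
    (hact : ∀ (g : G) (u v : V), T.Adj u v → T.Adj (g • u) (g • v))
    {a b : V} (hab : T.Adj a b)
    (hp : ∃ p : G, T.dist a (p • a) = T.dist b (p • b) + 2)
    (hq : ∃ q : G, T.dist b (q • b) = T.dist a (q • a) + 2)
    {B : Set X} (hB : ConvexCocompact (EdgeStabilizer G a b) B)
    (hk : ∃ k ∈ EdgeStabilizer G a b, IsRankOneIn B k) :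
    (∃ g : G, IsRankOneIn (univ : Set X) g) ∨
    ∃ B₀ : Set X, B₀ ⊆ B ∧ ConvexCocompact (EdgeStabilizer G a b) B₀ ∧ Nontrivial B₀ ∧
      ∃ (Z : Type) (_ : MetricSpace Z) (_ : Nontrivial Z) (e : X ≃ Z × B₀), ∀ x x' : X,
        dist x x' ^ 2 = dist (e x).1 (e x').1 ^ 2 + dist (e x).2 (e x').2 ^ 2 := by
  have hG : Pool.Agent.Y34.HB.Geo X G := ⟨inferInstance, inferInstance, inferInstance, hcc, hX⟩
  obtain ⟨p, hp⟩ := hp
  obtain ⟨q, hq⟩ := hq
  obtain ⟨k, hkK, τ, c, hτ, hci, hcB, hkc, hno⟩ := hk
  obtain ⟨b1, b2, b3, b4, b5⟩ := hB
  have hB' : CC (EdgeStabilizer G a b) B := ⟨b1, b2, b3, b4, b5⟩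
  have hax : @Pool.Agent.Y34.HB.Axis B _ (EdgeStabilizer G a b) _ (bact hB') ⟨k, hkK⟩ τ
      (fun t => ⟨c t, hcB t⟩) :=
    ⟨Isometry.of_dist_eq fun s t => hci.dist_eq s t, fun t => Subtype.ext (hkc t)⟩
  have hHP : Pool.Agent.Y34.HB.HP (fun t => (⟨c t, hcB t⟩ : B)) = ∅ := by
    rw [eq_empty_iff_forall_notMem]
    rintro H ⟨h1, h2⟩
    exact hno ⟨fun z => H z, h1, fun z => (H z).2, fun t => congrArg Subtype.val (h2 t)⟩
  have hK : ∀ s : G, s ∈ EdgeStabilizer G a b ↔ s • a = a ∧ s • b = b := by
    intro s
    simp [EdgeStabilizer, MulAction.mem_stabilizer_iff]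
  rcases main hT hact hG hc hB' ⟨k, hkK⟩ hτ hax hHP hab hK (p := p) (q := q)
    (by unfold Fac D; exact_mod_cast hp) (by unfold Fac D; exact_mod_cast hq) with
    ⟨g, τ', c', hτ', ⟨hc1, hc2⟩, he⟩ | ⟨B₀, hsub, h₀, hn, h⟩
  · left
    refine ⟨g, τ', c', hτ', hc1, fun _ => mem_univ _, hc2, ?_⟩
    rintro ⟨H, hH1, -, hH2⟩
    have : H ∈ Pool.Agent.Y34.HB.HP c' := ⟨hH1, hH2⟩
    rw [he] at this
    exact this
  · right
    exact ⟨B₀, hsub, ⟨h₀.ne, h₀.closed, h₀.conv, h₀.inv, h₀.cc⟩, hn, h⟩

end Pool.Agent.Results.MP_ff40e8_al.ConvexCocompactEdgeGroups
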