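import Pool.Agent.T6.H46.RC.Vert

/-!
# Rank rigidity for CAT(0) groups acting on trees with a convex cocompact vertex group which contains
# a rank one element

Let `G` act geometrically on a proper CAT(0) space `X`, and let `G` act on a tree `T`.  Let `v` be a
vertex of `T` whose stabiliser `V` fixes no neighbour of `v`, and assume that `V` is convex
cocompact: it acts cocompactly on a closed convex subset `B` of `X`.  Assume that some element of
`V` is a rank one isometry of `B`.  Nothing is assumed about the edge groups and the other vertex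
groups.  Theorem: (A) if some translate of `v` has an infinite orbit under `V` then `G` contains a
rank one isometry of `X`; (B) if `X` is geodesically complete then `G` contains a rank one
isometry of `X`, or `X` is a product of two spaces with more than one point (and one factor is a
closed convex subset of `B`).  This applies to all amalgams `V *_K W` with `K ≠ V` in which `V` is
as above, and to HNN extensions of `V` in which both edge groups are different from `V`.

Idea of the proof.  For `g` in `G` the subgroup `A = V ∩ gVg⁻¹` acts cocompactly on the points of `B`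
near `gB`, so it is quasi-convex in `V`.  If `A` contains powers of all conjugates in `V` of the
rank one element `k`, then the convex function `d(x, gB)` is bounded on `B` and `A` has finite index
in `V`.  Otherwise let `h` be a conjugate of `k` without powers in `A`.  By the dynamics of `h` on
`B` there is `t` in `V`, a product of powers of `h` and of some conjugate of `h`, such that `A ∩ tAt⁻¹`
is finite and `t` moves the first edge of the segment from `v` to `gv`.  So this group is the
stabiliser of the segment from `gv` to `tgv`, which passes through `v`.  For suitable `y` in `V` the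
element `t g y g⁻¹` is hyperbolic on `T` and this segment is on its axis; hyperbolic elements with
a segment of the axis with finite stabiliser are rank one isometries of `X`.  If `V ∩ gVg⁻¹` has
finite index in `V` for all `g`, then `X` splits: the translates of a minimal closed convex
`V`-invariant subset `B₀` of `B` are parallel, and `X` is the product of `B₀` and the space of the
parallel copies of `B₀`.
-/

set_option autoImplicit false

namespace Pool.Agent.Results.MP_ff40e8_al.ConvexCocompactVertexGroups

open Set Metric

/-- The inequality of Bruhat and Tits: a complete metric space is CAT(0) if and only if any two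
points `p`, `q` have a midpoint `m` such that
`d(x, m)² ≤ (d(x, p)² + d(x, q)²) / 2 - d(p, q)² / 4` for all `x`. -/
def BruhatTits (X : Type) [MetricSpace X] : Prop := ∀ p q : X, ∃ m : X, ∀ x : X,
  dist x m ^ 2 ≤ (dist x p ^ 2 + dist x q ^ 2) / 2 - dist p q ^ 2 / 4

/-- Every geodesic segment extends to a geodesic line: for `p ≠ q` there is a line through `p` and
`q` (in a CAT(0) space it contains the unique geodesic segment from `p` to `q`). -/
def GeodesicallyComplete (X : Type) [MetricSpace X] : Prop :=
  ∀ p q : X, p ≠ q → ∃ c : ℝ → X, Isometry c ∧ c 0 = p ∧ c (dist p q) = q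

/-- The line `c` bounds a flat half-plane in the subset `B`: there is an isometric embedding `H`
of the Euclidean half-plane `ℝ × [0, ∞)` in `X`, with image in `B`, which extends `c`. -/
def BoundsHalfPlaneIn {X : Type} [MetricSpace X] (B : Set X) (c : ℝ → X) : Prop :=
  ∃ H : ℝ × NNReal → X,
    (∀ p q : ℝ × NNReal, dist (H p) (H q) ^ 2 = (p.1 - q.1) ^ 2 + ((p.2 : ℝ) - q.2) ^ 2) ∧
    (∀ p : ℝ × NNReal, H p ∈ B) ∧ ∀ t : ℝ, H (t, 0) = c t

/-- `g` translates a geodesic line `c` in `B` by `τ > 0`, and this axis does not bound a flat
half-plane in `B`.  For `B = univ` this says that `g` is a rank one isometry of `X`, and for an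
invariant closed convex set `B` it says that `g` is a rank one isometry of `B`. -/
def IsRankOneIn {X : Type} [MetricSpace X] {G : Type} [Group G] [MulAction G X] (B : Set X)
    (g : G) : Prop :=
  ∃ (τ : ℝ) (c : ℝ → X), 0 < τ ∧ Isometry c ∧ (∀ t, c t ∈ B) ∧ (∀ t, g • c t = c (t + τ)) ∧
    ¬ BoundsHalfPlaneIn B c

/-- `B` is a nonempty closed convex subset of `X`, preserved by the subgroup `K`, which acts
cocompactly on `B`. -/
def ConvexCocompact {X : Type} [MetricSpace X] {G : Type} [Group G] [MulAction G X]
    (K : Subgroup G) (B : Set X) : Prop :=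
  B.Nonempty ∧ IsClosed B ∧
    (∀ p ∈ B, ∀ q ∈ B, ∀ m, dist p m + dist m q = dist p q → m ∈ B) ∧
    (∀ g ∈ K, ∀ x ∈ B, g • x ∈ B) ∧
    ∃ C : Set X, IsCompact C ∧ ∀ x ∈ B, ∃ g ∈ K, g • x ∈ C

open Pool.Agent.T6.H46.RC Pool.Agent.T6.H46.RR Pool.Agent.T6.H67.TA

/-- Let `G` act geometrically (by isometries, properly discontinuously, cocompactly) on a proper
CAT(0) space `X`, and let `G` act on a tree `T` by graph automorphisms.  Let `v` be a vertex of `T`
such that
* the stabiliser of `v` fixes no neighbour of `v`;
* the stabiliser of `v` acts cocompactly on a closed convex subset `B` of `X`, and contains an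
  element which is rank one in `B`.
(A) If for some `g` in `G` the stabiliser of `v` and `g v` has infinite index in the stabiliser of
`v`, then `G` contains a rank one isometry of `X`.
(B) If `X` is geodesically complete then `G` contains a rank one isometry of `X`, or `X` is
isometric to a product `Z × B₀`, where `Z` and `B₀` have more than one point and `B₀` is a closed
convex subset of `B`, on which the stabiliser of `v` acts cocompactly. -/
theorem result {X : Type} [MetricSpace X] [ProperSpace X] (hX : BruhatTits X)
    {G : Type} [Group G] [MulAction G X] [IsIsometricSMul G X] [ProperlyDiscontinuousSMul G X]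
    (hcc : ∃ C : Set X, IsCompact C ∧ ∀ x : X, ∃ g : G, g • x ∈ C)
    {V : Type} {T : SimpleGraph V} (hT : T.IsTree) [MulAction G V]
    (hact : ∀ (g : G) (u v : V), T.Adj u v → T.Adj (g • u) (g • v))
    {v : V} (hv : ∀ u : V, T.Adj v u → ∃ s : G, s • v = v ∧ s • u ≠ u)
    {B : Set X} (hB : ConvexCocompact (MulAction.stabilizer G v) B)
    (hk : ∃ k ∈ MulAction.stabilizer G v, IsRankOneIn B k) :
    ((∃ g : G, (MulAction.stabilizer G (g • v)).relIndex (MulAction.stabilizer G v) = 0) →
      ∃ g : G, IsRankOneIn (univ : Set X) g) ∧
    (GeodesicallyComplete X → (∃ g : G, IsRankOneIn (univ : Set X) g) ∨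
      ∃ B₀ : Set X, B₀ ⊆ B ∧ ConvexCocompact (MulAction.stabilizer G v) B₀ ∧ Nontrivial B₀ ∧
        ∃ (Z : Type) (_ : MetricSpace Z) (_ : Nontrivial Z) (e : X ≃ Z × B₀), ∀ x x' : X,
          dist x x' ^ 2 = dist (e x).1 (e x').1 ^ 2 + dist (e x).2 (e x').2 ^ 2) := by
  have hG : Pool.Agent.Y34.HB.Geo X G := ⟨inferInstance, inferInstance, inferInstance, hcc, hX⟩
  obtain ⟨k, hkK, τ, c, hτ, hci, hcB, hkc, hno⟩ := hk
  obtain ⟨b1, b2, b3, b4, b5⟩ := hB
  have hB' : CC (MulAction.stabilizer G v) B := ⟨b1, b2, b3, b4, b5⟩
  have hax : @Pool.Agent.Y34.HB.Axis B _ (MulAction.stabilizer G v) _ (bact hB') ⟨k, hkK⟩ τ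
      (fun t => ⟨c t, hcB t⟩) :=
    ⟨Isometry.of_dist_eq fun s t => hci.dist_eq s t, fun t => Subtype.ext (hkc t)⟩
  have hHP : Pool.Agent.Y34.HB.HP (fun t => (⟨c t, hcB t⟩ : B)) = ∅ := by
    rw [eq_empty_iff_forall_notMem]
    rintro H ⟨h1, h2⟩
    exact hno ⟨fun z => H z, h1, fun z => (H z).2, fun t => congrArg Subtype.val (h2 t)⟩
  have hK : ∀ s : G, s ∈ MulAction.stabilizer G v ↔ s • v = v := by
    intro s
    exact MulAction.mem_stabilizer_iff
  have hout : (∃ g : G, Pool.Agent.Y34.EL.RankOne X g) →
      ∃ g : G, IsRankOneIn (univ : Set X) g := by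
    rintro ⟨g, τ', c', hτ', ⟨hc1, hc2⟩, he⟩
    refine ⟨g, τ', c', hτ', hc1, fun _ => mem_univ _, hc2, ?_⟩
    rintro ⟨H, hH1, -, hH2⟩
    have : H ∈ Pool.Agent.Y34.HB.HP c' := ⟨hH1, hH2⟩
    rw [he] at this
    exact this
  constructor
  · rintro ⟨g, hg⟩
    rcases rank_one_or_vert hT hact hG hB' ⟨k, hkK⟩ hτ hax hHP hK hv with h | h
    · exact hout h
    · exfalso
      refine index_IK hG hB' (h g) ?_
      have e : IK (MulAction.stabilizer G v) g =
          (MulAction.stabilizer G (g • v)).subgroupOf (MulAction.stabilizer G v) := by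
        ext a
        rw [mem_IK, Subgroup.mem_subgroupOf, hK, MulAction.mem_stabilizer_iff, mul_smul, mul_smul,
          inv_smul_eq_iff]
      rw [e]
      exact hg
  · intro hc
    rcases main_vert hT hact hG hc hB' ⟨k, hkK⟩ hτ hax hHP hK hv with
      h | ⟨B₀, hsub, h₀, ⟨x, y, hxy⟩, h⟩
    · exact Or.inl (hout h)
    · right
      exact ⟨B₀, hsub, ⟨h₀.ne, h₀.closed, h₀.conv, h₀.inv, h₀.cc⟩, ⟨x, y, hxy⟩, h⟩

end Pool.Agent.Results.MP_ff40e8_al.ConvexCocompactVertexGroups
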