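import Pool.Agent.T6.H46.RC.Prd3

/-!
# Rank rigidity for CAT(0) groups acting on trees with a vertex group which is virtually a product of
# a rank one group and an abelian group

Let `G` act geometrically on a proper geodesically complete CAT(0) space `X`, and let `G` act on a
tree `T`.  Let `v` be a vertex of `T` whose stabiliser `V` fixes no neighbour of `v`.  Assume that
`V` has a subgroup of finite index `HZ`, where `H` and `Z` commute and `Z` is a finitely generated
abelian group, that `H` acts cocompactly on a closed convex subset `Y` of `X` with a rank one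
isometry of `Y` in `H`, and that `HZ` acts cocompactly on a closed convex subset `B` of `X` which is
isometric to a subset of a product `Y × F`, where `hz` acts on the first coordinate by `h`.
Nothing is assumed about the edge groups and the other vertex groups.  Theorem: `G` contains a rank
one isometry of `X`, or `X` is a product of two spaces with more than one point.  This applies to
amalgams and HNN extensions with vertex groups as in graph manifolds: products of a free group and
the integers, and more generally products of a group with rank one isometries and a free abelian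
group.

Idea of the proof.  If `H` is virtually cyclic then `V` is virtually abelian, and one can use
segment stabilisers of minimal rank.  Otherwise, for `g` in `G`, consider the group `P` of all `h` in
`H` such that `hz` is in `g(HZ)g⁻¹` for some `z` in `Z`.  It is quasi-convex in `H`.  Commutators of
elements of `P` are in `H ∩ gHg⁻¹`, so the convex function `d(y, gY)` on `Y` is invariant under
them.  If `P` contains powers of all conjugates of the rank one element `k`, then the dynamics of
`H` on `Y` shows that this function is bounded.  If it is bounded for all `g` then `X` splits, with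
the factor `Y₀`, a minimal closed convex `H`-invariant subset of `Y`.  Otherwise there are `g` and
`t` in `V` such that the stabiliser of the segment from `gv` to `tgv`, through `v`, is contained in
the union of finitely many cosets of `Z`, and this segment is on the axis of a hyperbolic element.  So
this stabiliser is virtually abelian, and the first part of the argument applies.
-/

set_option autoImplicit false

namespace Pool.Agent.Results.MP_ff40e8_al.ProductVertexGroups

open Set Metric

/-- The inequality of Bruhat and Tits: a complete metric space is CAT(0) if and only if any two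
points `p`, `q` have a midpoint `m` such that
`d(x, m)² ≤ (d(x, p)² + d(x, q)²) / 2 - d(p, q)² / 4` for all `x`. -/
def BruhatTits (X : Type) [MetricSpace X] : Prop := ∀ p q : X, ∃ m : X, ∀ x : X,
  dist x m ^ 2 ≤ (dist x p ^ 2 + dist x q ^ 2) / 2 - dist p q ^ 2 / 4

/-- Every geodesic segment extends to a geodesic line: for `p ≠ q` there is a line through `p` and
`q` (in a CAT(0) space it contains the unique geodesic segment from `p` to `q`). -/
def GeodesicallyComplete (X : Type) [MetricSpace X] : Prop :=
  ∀ p q : X, p ≠ q → ∃ c : ℝ → X, Isometry c ∧ c 0 = p ∧ c (dist p q) = q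

/-- The line `c` bounds a flat half-plane in the subset `B`: there is an isometric embedding `H`
of the Euclidean half-plane `ℝ × [0, ∞)` in `X`, with image in `B`, which extends `c`. -/
def BoundsHalfPlaneIn {X : Type} [MetricSpace X] (B : Set X) (c : ℝ → X) : Prop :=
  ∃ H : ℝ × NNReal → X,
    (∀ p q : ℝ × NNReal, dist (H p) (H q) ^ 2 = (p.1 - q.1) ^ 2 + ((p.2 : ℝ) - q.2) ^ 2) ∧
    (∀ p : ℝ × NNReal, H p ∈ B) ∧ ∀ t : ℝ, H (t, 0) = c t

/-- `g` translates a geodesic line `c` in `B` by `τ > 0`, and this axis does not bound a flat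
half-plane in `B`.  For `B = univ` this says that `g` is a rank one isometry of `X`, and for an
invariant closed convex set `B` it says that `g` is a rank one isometry of `B`. -/
def IsRankOneIn {X : Type} [MetricSpace X] {G : Type} [Group G] [MulAction G X] (B : Set X)
    (g : G) : Prop :=
  ∃ (τ : ℝ) (c : ℝ → X), 0 < τ ∧ Isometry c ∧ (∀ t, c t ∈ B) ∧ (∀ t, g • c t = c (t + τ)) ∧
    ¬ BoundsHalfPlaneIn B c

/-- `B` is a nonempty closed convex subset of `X`, preserved by the subgroup `K`, which acts
cocompactly on `B`. -/
def ConvexCocompact {X : Type} [MetricSpace X] {G : Type} [Group G] [MulAction G X]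
    (K : Subgroup G) (B : Set X) : Prop :=
  B.Nonempty ∧ IsClosed B ∧
    (∀ p ∈ B, ∀ q ∈ B, ∀ m, dist p m + dist m q = dist p q → m ∈ B) ∧
    (∀ g ∈ K, ∀ x ∈ B, g • x ∈ B) ∧
    ∃ C : Set X, IsCompact C ∧ ∀ x ∈ B, ∃ g ∈ K, g • x ∈ C

/-- The group `Z` is abelian and finitely generated, it commutes with `H`, the group `H` acts
cocompactly on the closed convex set `Y` and contains a rank one isometry of `Y`, and the group
generated by `H` and `Z` acts cocompactly on a closed convex set `B`, for which there is an
isometric embedding `e` in the product of `Y` and a metric space `F` (with the metric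
`(d_Y² + d_F²)^(1/2)`), such that `h z` acts on the first coordinate by `h`. -/
def IsRankOneTimesAbelian {X : Type} [MetricSpace X] {G : Type} [Group G] [MulAction G X]
    (H Z : Subgroup G) : Prop :=
  Z.FG ∧ (∀ z ∈ Z, ∀ z' ∈ Z, z * z' = z' * z) ∧ (∀ h ∈ H, ∀ z ∈ Z, h * z = z * h) ∧
    ∃ Y B : Set X, ConvexCocompact H Y ∧ (∃ k ∈ H, IsRankOneIn Y k) ∧
      ConvexCocompact (H ⊔ Z) B ∧
      ∃ (F : Type) (_ : MetricSpace F) (e : B → Y × F),
        (∀ x x' : B, dist x x' ^ 2 = dist (e x).1 (e x').1 ^ 2 + dist (e x).2 (e x').2 ^ 2) ∧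
        ∀ h ∈ H, ∀ z ∈ Z, ∀ x x' : B, (x' : X) = (h * z) • (x : X) →
          ((e x').1 : X) = h • ((e x).1 : X)

/-- `X` is isometric to the product of two metric spaces with more than one point. -/
def IsProduct (X : Type) [MetricSpace X] : Prop :=
  ∃ (X₁ X₂ : Type) (_ : MetricSpace X₁) (_ : MetricSpace X₂) (_ : Nontrivial X₁)
    (_ : Nontrivial X₂) (e : X ≃ X₁ × X₂), ∀ x x' : X,
    dist x x' ^ 2 = dist (e x).1 (e x').1 ^ 2 + dist (e x).2 (e x').2 ^ 2

open Pool.Agent.T6.H46.RC Pool.Agent.T6.H46.RR Pool.Agent.T6.H67.TA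

/-- Let `G` act geometrically (by isometries, properly discontinuously, cocompactly) on a proper
geodesically complete CAT(0) space `X`, and let `G` act on a tree `T` by graph automorphisms.  Let
`v` be a vertex of `T` such that
* the stabiliser `V` of `v` fixes no neighbour of `v`;
* `V` has a subgroup of finite index `HZ`, where `H` and `Z` are as in `IsRankOneTimesAbelian`.
Then `G` contains a rank one isometry of `X`, or `X` is isometric to a product of two spaces with
more than one point. -/
theorem result {X : Type} [MetricSpace X] [ProperSpace X] (hX : BruhatTits X)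
    (hgc : GeodesicallyComplete X)
    {G : Type} [Group G] [MulAction G X] [IsIsometricSMul G X] [ProperlyDiscontinuousSMul G X]
    (hcc : ∃ C : Set X, IsCompact C ∧ ∀ x : X, ∃ g : G, g • x ∈ C)
    {V : Type} {T : SimpleGraph V} (hT : T.IsTree) [MulAction G V]
    (hact : ∀ (g : G) (u v : V), T.Adj u v → T.Adj (g • u) (g • v))
    {v : V} (hv : ∀ u : V, T.Adj v u → ∃ s : G, s • v = v ∧ s • u ≠ u)
    {H Z : Subgroup G} (hle : H ⊔ Z ≤ MulAction.stabilizer G v)
    (hidx : (H ⊔ Z).relIndex (MulAction.stabilizer G v) ≠ 0)
    (hHZ : IsRankOneTimesAbelian (X := X) H Z) :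
    (∃ g : G, IsRankOneIn (univ : Set X) g) ∨ IsProduct X := by
  have hG : Pool.Agent.Y34.HB.Geo X G := ⟨inferInstance, inferInstance, inferInstance, hcc, hX⟩
  obtain ⟨hfg, hab, hcom, Y, B, ⟨a1, a2, a3, a4, a5⟩, ⟨k, hkH, τ, c, hτ, hci, hcB, hkc, hno⟩,
    ⟨b1, b2, b3, b4, b5⟩, F, _, e, he, heq⟩ := hHZ
  have hY : CC H Y := ⟨a1, a2, a3, a4, a5⟩
  have hB : CC (H ⊔ Z) B := ⟨b1, b2, b3, b4, b5⟩
  have hmem : ∀ s, s ∈ H ⊔ Z ↔ ∃ h ∈ H, ∃ z ∈ Z, s = h * z := by
    intro s
    constructor
    · intro hs
      have h1 : H ⊔ Z ≤
          { carrier := {s : G | ∃ h ∈ H, ∃ z ∈ Z, s = h * z}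
            one_mem' := ⟨1, H.one_mem, 1, Z.one_mem, by simp⟩
            mul_mem' := by
              rintro _ _ ⟨h, hh, z, hz, rfl⟩ ⟨h', hh', z', hz', rfl⟩
              refine ⟨h * h', H.mul_mem hh hh', z * z', Z.mul_mem hz hz', ?_⟩
              have := hcom h' hh' z hz
              calc h * z * (h' * z') = h * (z * h') * z' := by group
                _ = h * h' * (z * z') := by rw [← this]; group
            inv_mem' := by
              rintro _ ⟨h, hh, z, hz, rfl⟩
              refine ⟨h⁻¹, H.inv_mem hh, z⁻¹, Z.inv_mem hz, ?_⟩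
              rw [hcom h hh z hz, mul_inv_rev] } := by
        refine sup_le ?_ ?_
        · intro h hh
          exact ⟨h, hh, 1, Z.one_mem, by simp⟩
        · intro z hz
          exact ⟨1, H.one_mem, z, hz, by simp⟩
      exact h1 hs
    · rintro ⟨h, hh, z, hz, rfl⟩
      exact Subgroup.mul_mem _ (Subgroup.mem_sup_left hh) (Subgroup.mem_sup_right hz)
  have hpB : ProperSpace B := ProperSpace.of_isClosed b2
  have hpY : ProperSpace Y := ProperSpace.of_isClosed a2
  have hp : Prd H Z (H ⊔ Z) Y B (fun x => (e x).1) := by
    refine ⟨hmem, hcom, hab, hfg, hY, hB, fun x y => ?_, fun x y w hw => ?_, heq⟩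
    · have h1 := he x y
      have h2 := sq_nonneg (dist (e x).2 (e y).2)
      exact le_of_sq_le_sq (by linarith) dist_nonneg
    · exact prod_lift (cn_sub hX hB) (cn_sub hX hY) e he x y w hw
  have hax : @Pool.Agent.Y34.HB.Axis Y _ H _ (bact hY) ⟨k, hkH⟩ τ
      (fun t => ⟨c t, hcB t⟩) :=
    ⟨Isometry.of_dist_eq fun s t => hci.dist_eq s t, fun t => Subtype.ext (hkc t)⟩
  have hHP : Pool.Agent.Y34.HB.HP (fun t => (⟨c t, hcB t⟩ : Y)) = ∅ := by
    rw [eq_empty_iff_forall_notMem]
    rintro H ⟨h1, h2⟩
    exact hno ⟨fun z => H z, h1, fun z => (H z).2, fun t => congrArg Subtype.val (h2 t)⟩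
  rcases main_prd hT hact hG hgc hp ⟨k, hkH⟩ hτ hax hHP hle hidx hv with
    ⟨g, τ', c', hτ', ⟨hc1, hc2⟩, he⟩ | ⟨L, _, _, e, he⟩ | ⟨Y₀, -, -, ⟨x, y, hxy⟩, L, _, _, e, he⟩
  · refine Or.inl ⟨g, τ', c', hτ', hc1, fun _ => mem_univ _, hc2, ?_⟩
    rintro ⟨H, hH1, -, hH2⟩
    have : H ∈ Pool.Agent.Y34.HB.HP c' := ⟨hH1, hH2⟩
    rw [he] at this
    exact this
  · exact Or.inr ⟨L, ℝ, inferInstance, inferInstance, inferInstance, inferInstance, e, he⟩
  · exact Or.inr ⟨L, Y₀, inferInstance, inferInstance, inferInstance, ⟨x, y, hxy⟩, e, he⟩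

end Pool.Agent.Results.MP_ff40e8_al.ProductVertexGroups
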