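import Pool.Agent.T6.H46.RR.Main
import Pool.Agent.T6.H46.RR.Serre

/-!
# Rank rigidity for CAT(0) groups which act on trees with virtually abelian segment stabilisers

Let `G` act geometrically on a geodesically complete proper CAT(0) space `X`, and let `G` act on a
tree `T`.  Theorem: if some hyperbolic element of `G` has a segment of its axis in `T` whose
stabiliser is finitely generated virtually abelian, then `G` contains a rank one isometry of `X`, or
`X` is isometric to a product `Y × ℝ`, where `Y` has more than one point.  The hypothesis holds if
`G` fixes no vertex and no edge of `T` and the stabilisers of all long segments are finitely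
generated virtually abelian, for instance if `G` is an amalgam or an HNN extension over such a
group.

Idea of the proof.  Take among all segments of axes of hyperbolic elements, whose stabilisers are
finitely generated virtually abelian, one whose stabiliser `K` has minimal rank `r`.
(1) `r = 0`, i.e. `K` is finite: a hyperbolic `f` with a segment of its axis fixed by finitely many
elements of `G` only is a rank one isometry of `X`.  Otherwise an axis of `f` in `X` bounds a flat
half-plane; the far parallels of the axis and the detours through the half-plane are fellow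
travellers of chains of elements of `G` which cross the same segment of `T`; the crossings give
infinitely many elements of `G` which almost fix the segment.
(2) `r > 0`: for `g` in `G` there is a hyperbolic element whose axis contains long pieces of the
axis of `f` and of its translate by `g`.  By minimality of the rank the stabiliser of such a piece
is of finite index in `K` and in its conjugate.  So `K` is commensurated by `G`.
(3) Let `a` be an element of infinite order of an abelian subgroup `A` of finite index of `K`.  The
elements of `A` have a common minimum `y` of their displacements.  For `g` in `G` a power of `a` is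
in `g A g⁻¹`, so it has the point `g y` on an axis.  Hence the orbit of `y` is in the union `P` of
the lines parallel to an axis of `a`.  `P` is closed, convex and at bounded distance from all points
of `X`, so `P = X` by geodesic completeness and `X` splits off a line.
-/

set_option autoImplicit false

namespace Pool.Agent.Results.MP_ff40e8_al.VirtuallyAbelianSegments

open Set Metric

/-- The inequality of Bruhat and Tits: a complete metric space is CAT(0) if and only if any two
points `p`, `q` have a midpoint `m` such that
`d(x, m)² ≤ (d(x, p)² + d(x, q)²) / 2 - d(p, q)² / 4` for all `x`. -/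
def BruhatTits (X : Type) [MetricSpace X] : Prop := ∀ p q : X, ∃ m : X, ∀ x : X,
  dist x m ^ 2 ≤ (dist x p ^ 2 + dist x q ^ 2) / 2 - dist p q ^ 2 / 4

/-- Every geodesic segment extends to a geodesic line: for `p ≠ q` there is a line through `p` and
`q` (in a CAT(0) space it contains the unique geodesic segment from `p` to `q`). -/
def GeodesicallyComplete (X : Type) [MetricSpace X] : Prop :=
  ∀ p q : X, p ≠ q → ∃ c : ℝ → X, Isometry c ∧ c 0 = p ∧ c (dist p q) = q

/-- The line `c` bounds a flat half-plane: there is an isometric embedding `H` of the Euclidean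
half-plane `ℝ × [0, ∞)` in `X` which extends `c`. -/
def BoundsHalfPlane {X : Type} [MetricSpace X] (c : ℝ → X) : Prop :=
  ∃ H : ℝ × NNReal → X,
    (∀ p q : ℝ × NNReal, dist (H p) (H q) ^ 2 = (p.1 - q.1) ^ 2 + ((p.2 : ℝ) - q.2) ^ 2) ∧
    ∀ t : ℝ, H (t, 0) = c t

/-- `g` is a rank one isometry of `X`: it translates a geodesic line `c` by `τ > 0`, and this axis
does not bound a flat half-plane. -/
def IsRankOne (X : Type) [MetricSpace X] {G : Type} [Group G] [MulAction G X] (g : G) : Prop :=
  ∃ (τ : ℝ) (c : ℝ → X), 0 < τ ∧ Isometry c ∧ (∀ t, g • c t = c (t + τ)) ∧ ¬ BoundsHalfPlane c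

/-- `X` is isometric to the product (with the `ℓ²` metric) of a metric space with more than one
point and the line. -/
def SplitsOffLine (X : Type) [MetricSpace X] : Prop :=
  ∃ (Y : Type) (_ : MetricSpace Y) (_ : Nontrivial Y) (e : X ≃ Y × ℝ), ∀ x x' : X,
    dist x x' ^ 2 = dist (e x).1 (e x').1 ^ 2 + dist (e x).2 (e x').2 ^ 2

/-- The subgroup `K` has a finitely generated abelian subgroup of finite index. -/
def FGVirtuallyAbelian {G : Type} [Group G] (K : Subgroup G) : Prop :=
  ∃ A : Subgroup G, A ≤ K ∧ A.relIndex K ≠ 0 ∧ A.FG ∧ ∀ a ∈ A, ∀ b ∈ A, a * b = b * a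

/-- The subgroup of the elements which fix both `u` and `v` (hence, in a tree, the segment from `u`
to `v`). -/
def SegmentStabilizer (G : Type) [Group G] {V : Type} [MulAction G V] (u v : V) : Subgroup G :=
  MulAction.stabilizer G u ⊓ MulAction.stabilizer G v

open Pool.Agent.T6.H46.RR Pool.Agent.T6.H67.TA

lemma va_of {G : Type} [Group G] {K : Subgroup G} (h : FGVirtuallyAbelian K) :
    ∃ r, VA K r := by
  obtain ⟨A, hle, hidx, hfg, hcomm⟩ := h
  let _ : CommGroup A := { (inferInstance : Group A) with
    mul_comm := fun a b => Subtype.ext (hcomm a a.2 b b.2) }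
  have h1 : Group.FG A := (Group.fg_iff_subgroup_fg A).2 hfg
  have h2 : AddGroup.FG (Additive A) := inferInstance
  have h3 : Module.Finite ℤ (Additive A) := Module.Finite.iff_addGroup_fg.2 h2
  let φ : Multiplicative (Additive A) →* G :=
    A.subtype.comp (MulEquiv.multiplicativeAdditive A).toMonoidHom
  have hr : φ.range = A := by
    ext g
    constructor
    · rintro ⟨a, rfl⟩
      exact ((MulEquiv.multiplicativeAdditive A) a).2
    · intro hg
      exact ⟨(MulEquiv.multiplicativeAdditive A).symm ⟨g, hg⟩, rfl⟩
  refine ⟨_, Additive A, inferInstance, h3, φ, ?_, ?_, ?_, rfl⟩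
  · intro a b hab
    exact (MulEquiv.multiplicativeAdditive A).injective (Subtype.ext hab)
  · rw [hr]; exact hle
  · rw [hr]; exact hidx

/-- Let `G` act geometrically (by isometries, properly discontinuously, cocompactly) on a nonempty
proper geodesically complete CAT(0) space `X`, and let `G` act on a tree `T` by graph
automorphisms.  Assume one of the following.
* Some `f` in `G` is hyperbolic on `T` (it translates a vertex `w` along an axis) and, for some `n`,
  the stabiliser of the segment from `w` to `fⁿ w` is finitely generated virtually abelian.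
* `G` fixes no vertex and preserves no edge of `T`, and for some `n` the stabilisers of all
  segments of length at least `n` are finitely generated virtually abelian.
Then `G` contains a rank one isometry of `X`, or `X` is isometric to `Y × ℝ`, where `Y` has more
than one point. -/
theorem result {X : Type} [MetricSpace X] [ProperSpace X] [Nonempty X] (hX : BruhatTits X)
    (hc : GeodesicallyComplete X)
    {G : Type} [Group G] [MulAction G X] [IsIsometricSMul G X] [ProperlyDiscontinuousSMul G X]
    (hcc : ∃ K : Set X, IsCompact K ∧ ∀ x : X, ∃ g : G, g • x ∈ K)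
    {V : Type} {T : SimpleGraph V} (hT : T.IsTree) [MulAction G V]
    (hact : ∀ (g : G) (u v : V), T.Adj u v → T.Adj (g • u) (g • v))
    (h : (∃ (f : G) (w : V) (n : ℕ), 0 < T.dist w (f • w) ∧
        T.dist w (f • f • w) = 2 * T.dist w (f • w) ∧
        FGVirtuallyAbelian (SegmentStabilizer G w (f ^ n • w))) ∨
      ((∀ v : V, ∃ g : G, g • v ≠ v) ∧
        (∀ u v : V, T.Adj u v → ∃ g : G, g • u ∉ ({u, v} : Set V) ∨ g • v ∉ ({u, v} : Set V)) ∧
        ∃ n : ℕ, ∀ u v : V, n ≤ T.dist u v → FGVirtuallyAbelian (SegmentStabilizer G u v))) :
    (∃ g : G, IsRankOne X g) ∨ SplitsOffLine X := by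
  have hG : Pool.Agent.Y34.HB.Geo X G := ⟨inferInstance, inferInstance, inferInstance, hcc, hX⟩
  obtain ⟨o⟩ : Nonempty X := inferInstance
  obtain ⟨f, w, n, hf, hva⟩ : ∃ (f : G) (w : V) (n : ℕ), OnAxis T f w ∧
      FGVirtuallyAbelian (SegmentStabilizer G w (f ^ n • w)) := by
    rcases h with ⟨f, w, n, h1, h2, h3⟩ | ⟨h1, h2, n, h3⟩
    · refine ⟨f, w, n, ⟨?_, ?_⟩, h3⟩
      · unfold D; exact_mod_cast h1
      · have e1 : D T w (f⁻¹ • w) = D T w (f • w) := D_inv hT hact f w
        have e2 : D T (f • w) (f⁻¹ • w) = D T w (f • f • w) := by
          have := D_smul hT hact f (f • w) (f⁻¹ • w)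
          rw [smul_inv_smul] at this
          rw [← this, D_comm]
        unfold P
        rw [e1, e2]
        unfold D
        rw [h2]; push_cast; ring
    · have hfg := fg_of_geo hG o
      obtain ⟨f, w, hf⟩ := exists_hyperbolic hT hact hfg h1 (by
        intro u v huv
        obtain ⟨g, hg⟩ := h2 u v huv
        refine ⟨g, ?_⟩
        simpa [not_or] using hg)
      refine ⟨f, w, n, hf, h3 _ _ ?_⟩
      have e1 := D_pow hT hact hf n
      have e2 := hf.1
      have e3 : (n : ℤ) ≤ D T w (f ^ n • w) := by
        rw [e1]; nlinarith
      unfold D at e3
      exact_mod_cast e3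
  obtain ⟨r, hr⟩ := va_of hva
  rcases main_pair hT hact hG hc o hf n hr with ⟨g, τ, c, hτ, hc, he⟩ | h
  · left
    refine ⟨g, τ, c, hτ, hc.1, hc.2, ?_⟩
    rintro ⟨H, hH⟩
    have : H ∈ Pool.Agent.Y34.HB.HP c := hH
    rw [he] at this
    exact this
  · exact Or.inr h

end Pool.Agent.Results.MP_ff40e8_al.VirtuallyAbelianSegments
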